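import Mathlib

namespace Pool.Agent.Results.MP_9fbb3c_co.ClassSize

open Finset

/-- The family `B : I → Finset P` of blocks (repeated blocks allowed) on the point set `P` is a
`(v, k, l)`-BIBD. -/
structure IsBIBD {P I : Type} [Fintype P] [DecidableEq P] [Fintype I] (B : I → Finset P)
    (v k l : ℕ) : Prop where
  two_le : 2 ≤ k
  lt : k < v
  pos : 0 < l
  points : Fintype.card P = v
  block : ∀ i, (B i).card = k
  pair : ∀ x y, x ≠ y → (univ.filter fun i => x ∈ B i ∧ y ∈ B i).card = l

/-- The colouring `f : P → C` is a `0`-ULSE `m`-colouring of the blocks `B` of size `k`: it is a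
surjection onto a set of `m` colours, `m - 1` divides `k`, and in every block exactly one colour
does not occur while each other colour occurs exactly `k / (m - 1)` times. -/
structure IsULSE {P I C : Type} [Fintype C] [DecidableEq C] (B : I → Finset P) (k m : ℕ)
    (f : P → C) : Prop where
  surj : Function.Surjective f
  card : Fintype.card C = m
  dvd : m - 1 ∣ k
  absent : ∀ i, ∃! c, ∀ x ∈ B i, f x ≠ c
  count : ∀ i c, (∃ x ∈ B i, f x = c) → ((B i).filter fun x => f x = c).card = k / (m - 1)

/-- Some symmetric BIBD has `v` points and block size `k`. -/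
def ExistsSymmetric (v k : ℕ) : Prop :=
  ∃ (P I : Type) (_ : Fintype P) (_ : DecidableEq P) (_ : Fintype I) (B : I → Finset P) (l : ℕ),
    IsBIBD B v k l ∧ Fintype.card I = v

/-- Some symmetric BIBD with `v` points and block size `k` has a `0`-ULSE `m`-colouring. -/
def ExistsColoured (v k m : ℕ) : Prop :=
  ∃ (P I C : Type) (_ : Fintype P) (_ : DecidableEq P) (_ : Fintype I) (_ : Fintype C)
    (_ : DecidableEq C) (B : I → Finset P) (l : ℕ) (f : P → C),
    IsBIBD B v k l ∧ Fintype.card I = v ∧ IsULSE B k m f

section count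

set_option linter.unusedSectionVars false

variable {P I : Type} [Fintype P] [DecidableEq P] [Fintype I] (B : I → Finset P)

lemma sum_card (S : Finset P) :
    ∑ i, (S ∩ B i).card = ∑ x ∈ S, (univ.filter fun i => x ∈ B i).card := by
  simp_rw [card_filter, ← filter_mem_eq_inter, card_filter]
  rw [sum_comm]

lemma sum_card_sq (S : Finset P) :
    ∑ i, (S ∩ B i).card ^ 2 =
      ∑ x ∈ S, ∑ y ∈ S, (univ.filter fun i => x ∈ B i ∧ y ∈ B i).card := by
  have h : ∀ i, (S ∩ B i).card ^ 2 =
      ∑ x ∈ S, ∑ y ∈ S, (if x ∈ B i ∧ y ∈ B i then 1 else 0) := by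
    intro i
    rw [← filter_mem_eq_inter, card_filter, sq, sum_mul_sum]
    refine sum_congr rfl fun x _ => sum_congr rfl fun y _ => ?_
    by_cases hx : x ∈ B i <;> by_cases hy : y ∈ B i <;> simp [hx, hy]
  simp_rw [h, card_filter]
  rw [sum_comm]
  refine sum_congr rfl fun x _ => ?_
  rw [sum_comm]

variable {B} {v k l : ℕ}

/-- The number of blocks on a point. -/
lemma rep (h : IsBIBD B v k l) (x : P) :
    (univ.filter fun i => x ∈ B i).card * (k - 1) = l * (v - 1) := by
  have h1 : ∑ y ∈ univ.erase x, (univ.filter fun i => x ∈ B i ∧ y ∈ B i).card = l * (v - 1) := by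
    rw [sum_congr rfl fun y hy => h.pair x y (ne_of_mem_erase hy).symm, sum_const,
      card_erase_of_mem (mem_univ x), card_univ, h.points, smul_eq_mul, mul_comm]
  rw [← h1]
  simp_rw [card_filter]
  rw [sum_comm, sum_mul]
  refine sum_congr rfl fun i _ => ?_
  by_cases hx : x ∈ B i
  · simp only [hx, if_true, true_and, one_mul]
    rw [← card_filter]
    have : (filter (fun y => y ∈ B i) (univ.erase x)) = (B i).erase x := by
      ext y; simp
    rw [this, card_erase_of_mem hx, h.block]
  · simp [hx]

/-- Every class of a `0`-ULSE colouring has `1 + r (t - 1) / l` points, where `t = k / (m - 1)`. -/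
lemma class_size {C : Type} [Fintype C] [DecidableEq C] {m : ℕ} {f : P → C} (h : IsBIBD B v k l)
    (hf : IsULSE B k m f) (c : C) :
    l * (v - 1) * (k / (m - 1) - 1) =
      l * ((univ.filter fun x => f x = c).card - 1) * (k - 1) := by
  classical
  generalize ht : k / (m - 1) = t
  set S := univ.filter fun x => f x = c with hS
  obtain ⟨x₀, hx₀⟩ := hf.surj c
  have hSpos : 0 < S.card := card_pos.mpr ⟨x₀, by simp [hS, hx₀]⟩
  -- the intersection sizes are `0` or `t`
  have hint : ∀ i, (S ∩ B i).card = 0 ∨ (S ∩ B i).card = t := by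
    intro i
    by_cases hc : ∃ x ∈ B i, f x = c
    · right
      rw [← ht, ← hf.count i c hc]
      congr 1
      ext x
      simp [hS, and_comm]
    · left
      rw [card_eq_zero, eq_empty_iff_forall_notMem]
      intro x hx
      rw [mem_inter, hS, mem_filter] at hx
      exact hc ⟨x, hx.2, hx.1.2⟩
  have h1 : ∑ i, (S ∩ B i).card ^ 2 = t * ∑ i, (S ∩ B i).card := by
    rw [mul_sum]
    refine sum_congr rfl fun i _ => ?_
    rcases hint i with h | h <;> rw [h]
    · simp
    · ring
  rw [sum_card_sq, sum_card] at h1
  -- multiply by `k - 1`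
  have h2 : ∀ x ∈ S, ∑ y ∈ S, (univ.filter fun i => x ∈ B i ∧ y ∈ B i).card =
      (univ.filter fun i => x ∈ B i).card + l * (S.card - 1) := by
    intro x hx
    rw [← add_sum_erase _ _ hx, sum_congr rfl fun y hy => h.pair x y (ne_of_mem_erase hy).symm,
      sum_const, card_erase_of_mem hx, smul_eq_mul, mul_comm l]
    simp only [and_self]
  rw [sum_congr rfl h2, sum_add_distrib, sum_const, smul_eq_mul] at h1
  have h3 : (∑ x ∈ S, (univ.filter fun i => x ∈ B i).card) * (k - 1) =
      S.card * (l * (v - 1)) := by
    rw [sum_mul, sum_congr rfl fun x _ => rep h x, sum_const, smul_eq_mul]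
  have h4 := congrArg (· * (k - 1)) h1
  rw [add_mul, h3, mul_assoc t, h3] at h4
  have ht1 : 1 ≤ t := by
    obtain ⟨i, -⟩ : ∃ i : I, True := by
      by_contra hno
      push Not at hno
      obtain ⟨x, y, hxy⟩ : ∃ x y : P, x ≠ y := by
        have : 1 < Fintype.card P := by rw [h.points]; have := h.two_le; have := h.lt; omega
        exact Fintype.exists_pair_of_one_lt_card this
      have := h.pair x y hxy
      have he : (univ.filter fun i => x ∈ B i ∧ y ∈ B i) = ∅ := by
        rw [eq_empty_iff_forall_notMem]
        intro i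
        exact (hno i).elim
      rw [he, card_empty] at this
      have := h.pos
      omega
    have hk : 0 < (B i).card := by rw [h.block]; have := h.two_le; omega
    obtain ⟨x, hx⟩ := card_pos.mp hk
    rw [← ht, ← hf.count i (f x) ⟨x, hx, rfl⟩]
    exact card_pos.mpr ⟨x, by simp [hx]⟩
  obtain ⟨u, hu⟩ := Nat.exists_eq_add_of_le ht1
  have h5 : S.card * (l * (S.card - 1) * (k - 1)) = S.card * (l * (v - 1) * (t - 1)) := by
    rw [hu] at h4 ⊢
    rw [Nat.add_sub_cancel_left]
    nlinarith [h4]
  exact (Nat.eq_of_mul_eq_mul_left hSpos h5).symm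

/-- All classes have the same number of points, so `m` divides `v`. -/
lemma mul_class {C : Type} [Fintype C] [DecidableEq C] {m : ℕ} {f : P → C} (h : IsBIBD B v k l)
    (hf : IsULSE B k m f) (c : C) :
    m * (univ.filter fun x => f x = c).card = v := by
  classical
  have hpos : ∀ c : C, 0 < (univ.filter fun x => f x = c).card := by
    intro c
    obtain ⟨x₀, hx₀⟩ := hf.surj c
    exact card_pos.mpr ⟨x₀, by simp [hx₀]⟩
  have heq : ∀ c' : C, (univ.filter fun x => f x = c').card = (univ.filter fun x => f x = c).card := by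
    intro c'
    have h1 := class_size h hf c
    have h2 := class_size h hf c'
    have h3 := h1.symm.trans h2
    have hk : 0 < k - 1 := by have := h.two_le; omega
    have h4 := Nat.eq_of_mul_eq_mul_right hk h3
    have h5 := Nat.eq_of_mul_eq_mul_left h.pos h4
    have := hpos c
    have := hpos c'
    omega
  have h1 : ∑ c' : C, (univ.filter fun x => f x = c').card = Fintype.card P := by
    rw [← card_univ (α := P)]
    exact (card_eq_sum_card_fiberwise fun x _ => mem_univ (f x)).symm
  rw [sum_congr rfl fun c' _ => heq c', sum_const, card_univ, hf.card, smul_eq_mul, h.points] at h1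
  exact h1

end count

/-- The complement of the rook design on the `4 × 4` grid. -/
def rook (p : Fin 4 × Fin 4) : Finset (Fin 4 × Fin 4) :=
  univ.filter fun x => (x.1 = p.1 ↔ x.2 = p.2)

set_option maxRecDepth 100000 in
lemma rook_bibd : IsBIBD rook 16 10 6 where
  two_le := by norm_num
  lt := by norm_num
  pos := by norm_num
  points := by simp
  block := by decide
  pair := by decide

/-- The equation `(∗)`. -/
def Star (v k m : ℕ) : Prop :=
  (v : ℚ) = (m : ℚ) * ((m : ℚ) - 2) * k / (((m : ℚ) - 1) ^ 2 - k)

/-- The answer to Q1, as stated, is negative: for `(v, k, m) = (16, 10, 6)` the equation `(∗)` holds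
and there is a symmetric BIBD with `16` points and block size `10`, but no symmetric BIBD with `16`
points and block size `10` has a `0`-ULSE `6`-colouring, since all colour classes of a `0`-ULSE
colouring have the same number of points (`mul_class`) and `6` does not divide `16`. -/
theorem result : Star 16 10 6 ∧ ExistsSymmetric 16 10 ∧ ¬ ExistsColoured 16 10 6 := by
  refine ⟨?_, ⟨_, _, _, _, _, rook, 6, rook_bibd, by simp⟩, ?_⟩
  · unfold Star
    norm_num
  · rintro ⟨P, I, C, _, _, _, _, _, B, l, f, h, -, hf⟩
    have hC : 0 < Fintype.card C := by rw [hf.card]; norm_num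
    obtain ⟨c⟩ := Fintype.card_pos_iff.mp hC
    have := mul_class h hf c
    omega

end Pool.Agent.Results.MP_9fbb3c_co.ClassSize
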