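import Mathlib
import Pool.Agent.Results.MP_9fbb3c_co.ClassSize

namespace Pool.Agent.Results.MP_9fbb3c_co.Projective

set_option linter.unusedSectionVars false
set_option linter.style.haveILetI false

open Finset Module
open scoped LinearAlgebra.Projectivization
open Pool.Agent.Results.MP_9fbb3c_co.ClassSize

section functional

variable {F V : Type} [Field F] [Fintype F] [AddCommGroup V] [Module F V] [Fintype V]
  [DecidableEq F]

/-- The number of zeros of a nonzero functional. -/
lemma card_zero {n : ℕ} (hn : finrank F V = n + 1) (f : V →ₗ[F] F) (hf : f ≠ 0) :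
    (univ.filter fun v => f v = 0).card = Fintype.card F ^ n := by
  classical
  have h1 := LinearMap.finrank_range_add_finrank_ker f
  have h2 : LinearMap.range f = ⊤ := LinearMap.range_eq_top.mpr (LinearMap.surjective hf)
  rw [h2, finrank_top, finrank_self, hn] at h1
  have h3 : finrank F (LinearMap.ker f) = n := by omega
  have h4 : Fintype.card (LinearMap.ker f) = Fintype.card F ^ n := by
    rw [Module.card_eq_pow_finrank (K := F), h3]
  rw [← h4]
  exact (Fintype.card_of_subtype _ (by intro x; simp)).symm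

lemma card_ne {n : ℕ} (hn : finrank F V = n + 1) (f : V →ₗ[F] F) (hf : f ≠ 0) :
    (univ.filter fun v => f v ≠ 0).card = (Fintype.card F - 1) * Fintype.card F ^ n := by
  have h1 := card_filter_add_card_filter_not (s := (univ : Finset V)) (fun v => f v = 0)
  rw [card_zero hn f hf, card_univ, Module.card_eq_pow_finrank (K := F) (V := V), hn,
    pow_succ] at h1
  obtain ⟨q, hq⟩ : ∃ q, Fintype.card F = q + 1 := ⟨Fintype.card F - 1, by
    have := Fintype.card_pos (α := F); omega⟩
  rw [hq] at h1 ⊢
  rw [Nat.add_sub_cancel]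
  nlinarith [h1]

/-- The number of common zeros of two independent functionals. -/
lemma card_zero_zero {n : ℕ} (hn : finrank F V = n + 2) (f g : V →ₗ[F] F) (hf : f ≠ 0)
    (hg : ∀ c : F, g ≠ c • f) :
    (univ.filter fun v => f v = 0 ∧ g v = 0).card = Fintype.card F ^ n := by
  classical
  have h1 := LinearMap.finrank_range_add_finrank_ker f
  have h2 : LinearMap.range f = ⊤ := LinearMap.range_eq_top.mpr (LinearMap.surjective hf)
  rw [h2, finrank_top, finrank_self, hn] at h1
  have h3 : finrank F (LinearMap.ker f) = n + 1 := by omega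
  have hg' : g.domRestrict (LinearMap.ker f) ≠ 0 := by
    intro h0
    obtain ⟨w, hw⟩ := LinearMap.surjective hf 1
    apply hg (g w)
    ext v
    have h4 : v - f v • w ∈ LinearMap.ker f := by
      rw [LinearMap.mem_ker, map_sub, map_smul, hw, smul_eq_mul, mul_one, sub_self]
    have h5 := LinearMap.congr_fun h0 ⟨_, h4⟩
    rw [LinearMap.domRestrict_apply, LinearMap.zero_apply, map_sub, map_smul, sub_eq_zero] at h5
    rw [h5, LinearMap.smul_apply, smul_eq_mul, smul_eq_mul, mul_comm]
  rw [← card_zero h3 _ hg']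
  symm
  refine card_bij (fun x _ => (x : V)) ?_ ?_ ?_
  · intro x hx
    rw [mem_filter] at hx ⊢
    exact ⟨mem_univ _, x.2, hx.2⟩
  · intro x _ y _ h
    exact Subtype.ext h
  · intro v hv
    rw [mem_filter] at hv
    exact ⟨⟨v, hv.2.1⟩, by rw [mem_filter]; exact ⟨mem_univ _, hv.2.2⟩, rfl⟩

lemma card_ne_ne {n : ℕ} (hn : finrank F V = n + 2) (f g : V →ₗ[F] F) (hf : f ≠ 0) (hg0 : g ≠ 0)
    (hg : ∀ c : F, g ≠ c • f) :
    (univ.filter fun v => f v ≠ 0 ∧ g v ≠ 0).card =
      (Fintype.card F - 1) * ((Fintype.card F - 1) * Fintype.card F ^ n) := by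
  have h1 := card_filter_add_card_filter_not (s := univ.filter fun v => f v ≠ 0)
    (fun v => g v ≠ 0)
  have h2 := card_filter_add_card_filter_not (s := univ.filter fun v => g v = 0)
    (fun v => f v = 0)
  rw [filter_filter, filter_filter, card_ne hn f hf] at h1
  rw [filter_filter, filter_filter, card_zero hn g hg0] at h2
  have h3 : (univ.filter fun v => f v ≠ 0 ∧ ¬ g v ≠ 0) = univ.filter fun v => g v = 0 ∧ ¬ f v = 0 := by
    ext v; simp [and_comm]
  have h4 : (univ.filter fun v => g v = 0 ∧ f v = 0) = univ.filter fun v => f v = 0 ∧ g v = 0 := by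
    ext v; simp [and_comm]
  rw [h3] at h1
  rw [h4, card_zero_zero hn f g hf hg] at h2
  obtain ⟨q, hq⟩ : ∃ q, Fintype.card F = q + 1 := ⟨Fintype.card F - 1, by
    have := Fintype.card_pos (α := F); omega⟩
  rw [hq, Nat.add_sub_cancel] at h1 ⊢
  rw [hq] at h2
  rw [pow_succ] at h1 h2
  nlinarith [h1, h2]

end functional

section proj

variable {F V : Type} [Field F] [Fintype F] [AddCommGroup V] [Module F V] [Fintype V]
  [DecidableEq F] [DecidableEq V]

noncomputable instance : Fintype (ℙ F V) := Fintype.ofFinite _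

noncomputable instance : DecidableEq (ℙ F V) := Classical.decEq _

lemma card_fiber (x : ℙ F V) :
    (univ.filter fun w : {v : V // v ≠ 0} => Projectivization.mk' F w = x).card =
      Fintype.card F - 1 := by
  classical
  rw [← Fintype.card_units, ← card_univ]
  symm
  refine card_bij (fun a _ => ⟨a • x.rep, by
    rw [Units.smul_def]; exact smul_ne_zero a.ne_zero x.rep_nonzero⟩) ?_ ?_ ?_
  · intro a _
    rw [mem_filter]
    refine ⟨mem_univ _, ?_⟩
    conv_rhs => rw [← x.mk_rep]
    rw [Projectivization.mk'_eq_mk, Projectivization.mk_eq_mk_iff]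
    exact ⟨a, rfl⟩
  · intro a _ b _ h
    rw [Subtype.mk.injEq, Units.smul_def, Units.smul_def] at h
    exact Units.ext (smul_left_injective F x.rep_nonzero h)
  · intro w hw
    rw [mem_filter] at hw
    obtain ⟨-, hw⟩ := hw
    rw [← x.mk_rep, Projectivization.mk'_eq_mk, Projectivization.mk_eq_mk_iff] at hw
    obtain ⟨a, ha⟩ := hw
    exact ⟨a, mem_univ _, Subtype.ext ha⟩

/-- Counting points of the projective space through nonzero vectors. -/
lemma card_proj (Q : ℙ F V → Prop) [DecidablePred Q] (R : V → Prop) [DecidablePred R]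
    (hR : ∀ v (hv : v ≠ 0), R v ↔ Q (Projectivization.mk F v hv)) (h0 : ¬ R 0) :
    (univ.filter R).card = (univ.filter Q).card * (Fintype.card F - 1) := by
  classical
  have h1 : (univ.filter R).card =
      (univ.filter fun w : {v : V // v ≠ 0} => Q (Projectivization.mk' F w)).card := by
    symm
    refine card_bij (fun w _ => (w : V)) ?_ ?_ ?_
    · intro w hw
      rw [mem_filter] at hw ⊢
      exact ⟨mem_univ _, (hR w w.2).mpr hw.2⟩
    · intro w _ w' _ h
      exact Subtype.ext h
    · intro v hv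
      rw [mem_filter] at hv
      have hv0 : v ≠ 0 := by
        rintro rfl
        exact h0 hv.2
      exact ⟨⟨v, hv0⟩, by rw [mem_filter]; exact ⟨mem_univ _, (hR v hv0).mp hv.2⟩, rfl⟩
  rw [h1, card_eq_sum_card_fiberwise (f := fun w => Projectivization.mk' F w)
    (t := univ.filter Q)]
  · rw [← smul_eq_mul, ← sum_const]
    refine sum_congr rfl fun x hx => ?_
    rw [← card_fiber x, filter_filter]
    congr 1
    ext w
    rw [mem_filter] at hx
    simp only [mem_filter, mem_univ, true_and]
    constructor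
    · exact fun h => h.2
    · rintro rfl
      exact ⟨hx.2, rfl⟩
  · intro w hw
    rw [mem_coe, mem_filter] at hw ⊢
    exact ⟨mem_univ _, hw.2⟩

/-- The blocks of the complement of the design of points and hyperplanes, given by a bilinear form. -/
noncomputable def blk (β : V →ₗ[F] V →ₗ[F] F) (b : ℙ F V) : Finset (ℙ F V) :=
  univ.filter fun x => β b.rep x.rep ≠ 0

lemma form_mk (β : V →ₗ[F] V →ₗ[F] F) (v w : V) (hv : v ≠ 0) (hw : w ≠ 0) :
    β (Projectivization.mk F v hv).rep (Projectivization.mk F w hw).rep ≠ 0 ↔ β v w ≠ 0 := by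
  obtain ⟨a, ha⟩ := Projectivization.exists_smul_eq_mk_rep F v hv
  obtain ⟨b, hb⟩ := Projectivization.exists_smul_eq_mk_rep F w hw
  rw [← ha, ← hb, Units.smul_def, Units.smul_def, map_smul, map_smul, LinearMap.smul_apply]
  simp

lemma form_mk_left (β : V →ₗ[F] V →ₗ[F] F) (v : V) (x : ℙ F V) (hv : v ≠ 0) :
    β (Projectivization.mk F v hv).rep x.rep ≠ 0 ↔ β v x.rep ≠ 0 := by
  conv_lhs => rw [← x.mk_rep]
  exact form_mk β v x.rep hv x.rep_nonzero

lemma form_mk_right (β : V →ₗ[F] V →ₗ[F] F) (x : ℙ F V) (w : V) (hw : w ≠ 0) :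
    β x.rep (Projectivization.mk F w hw).rep ≠ 0 ↔ β x.rep w ≠ 0 := by
  conv_lhs => rw [← x.mk_rep]
  exact form_mk β x.rep w x.rep_nonzero hw

lemma bibd {n : ℕ} (hn : finrank F V = n + 2) (β : V →ₗ[F] V →ₗ[F] F)
    (h1 : ∀ v, v ≠ 0 → β v ≠ 0) (h2 : ∀ w, w ≠ 0 → β.flip w ≠ 0)
    (hlt : 2 ≤ Fintype.card F ^ (n + 1)) :
    IsBIBD (blk β) (Fintype.card (ℙ F V)) (Fintype.card F ^ (n + 1))
      ((Fintype.card F - 1) * Fintype.card F ^ n) := by
  have hq : 0 < Fintype.card F - 1 := by
    have := Fintype.one_lt_card (α := F)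
    omega
  have hP : Fintype.card (ℙ F V) * (Fintype.card F - 1) = Fintype.card F ^ (n + 2) - 1 := by
    have := Projectivization.card F V
    rw [Nat.card_eq_fintype_card, Nat.card_eq_fintype_card, Nat.card_eq_fintype_card,
      Module.card_eq_pow_finrank (K := F) (V := V), hn] at this
    exact this.symm
  have hblk : ∀ b, (blk β b).card = Fintype.card F ^ (n + 1) := by
    intro b
    have h3 := card_proj (F := F) (fun x : ℙ F V => β b.rep x.rep ≠ 0) (fun v => β b.rep v ≠ 0)
      (fun v hv => (form_mk_right β b v hv).symm) (by simp)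
    rw [card_ne (n := n + 1) hn _ (h1 _ b.rep_nonzero), mul_comm] at h3
    exact (Nat.eq_of_mul_eq_mul_right hq h3).symm
  refine ⟨hlt, ?_, ?_, rfl, hblk, ?_⟩
  · -- `k < v`
    have h3 : 1 < Fintype.card F := Fintype.one_lt_card
    have h4 : Fintype.card F ^ (n + 1) * (Fintype.card F - 1) <
        Fintype.card (ℙ F V) * (Fintype.card F - 1) := by
      rw [hP, Nat.mul_sub, mul_one, ← pow_succ]
      have h5 : Fintype.card F ^ (n + 1) < Fintype.card F ^ (n + 2) :=
        Nat.pow_lt_pow_right h3 (by omega)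
      show Fintype.card F ^ (n + 2) - Fintype.card F ^ (n + 1) < Fintype.card F ^ (n + 2) - 1
      omega
    exact Nat.lt_of_mul_lt_mul_right h4
  · exact Nat.mul_pos hq (pow_pos Fintype.card_pos _)
  · intro x y hxy
    have h3 := card_proj (F := F) (fun b : ℙ F V => β b.rep x.rep ≠ 0 ∧ β b.rep y.rep ≠ 0)
      (fun v => β v x.rep ≠ 0 ∧ β v y.rep ≠ 0)
      (fun v hv => by rw [form_mk_left β v x hv, form_mk_left β v y hv]) (by simp)
    have h4 := card_ne_ne hn (β.flip x.rep) (β.flip y.rep) (h2 _ x.rep_nonzero)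
      (h2 _ y.rep_nonzero) (by
        intro c hc
        have h5 : β.flip (y.rep - c • x.rep) = 0 := by rw [map_sub, map_smul, hc, sub_self]
        have h6 : y.rep - c • x.rep = 0 := by
          by_contra h6
          exact h2 _ h6 h5
        apply hxy
        rw [← x.mk_rep, ← y.mk_rep, Projectivization.mk_eq_mk_iff']
        have hc0 : c ≠ 0 := by
          rintro rfl
          rw [zero_smul, sub_zero] at h6
          exact y.rep_nonzero h6
        refine ⟨c⁻¹, ?_⟩
        rw [sub_eq_zero] at h6
        rw [h6, smul_smul, inv_mul_cancel₀ hc0, one_smul])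
    have h5 : (Fintype.card F - 1) * Fintype.card F ^ n * (Fintype.card F - 1) =
        (univ.filter fun b : ℙ F V => β b.rep x.rep ≠ 0 ∧ β b.rep y.rep ≠ 0).card *
          (Fintype.card F - 1) := by
      rw [← h3, mul_comm, ← h4]
      refine congrArg Finset.card (Finset.ext fun v => ?_)
      rw [mem_filter, mem_filter, LinearMap.flip_apply, LinearMap.flip_apply]
    rw [Nat.eq_of_mul_eq_mul_right hq h5]
    congr 1
    ext b
    simp [blk]

end proj

section spread

variable {F K : Type} [Field F] [Fintype F] [Field K] [Fintype K] [Algebra F K] [DecidableEq F]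
  [DecidableEq K]

/-- The bilinear form `τ (b₁ x₁ + b₂ x₂)` on `K × K`. -/
noncomputable def form (τ : K →ₗ[F] F) : (K × K) →ₗ[F] (K × K) →ₗ[F] F :=
  LinearMap.mk₂ F (fun b p => τ (b.1 * p.1 + b.2 * p.2))
    (fun b b' p => by
      rw [← map_add]
      congr 1
      simp only [Prod.fst_add, Prod.snd_add]
      ring)
    (fun c b p => by
      rw [← map_smul]
      congr 1
      simp only [Prod.smul_fst, Prod.smul_snd, smul_add, Algebra.smul_mul_assoc])
    (fun b p p' => by
      rw [← map_add]
      congr 1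
      simp only [Prod.fst_add, Prod.snd_add]
      ring)
    (fun c b p => by
      rw [← map_smul]
      congr 1
      simp only [Prod.smul_fst, Prod.smul_snd, smul_add, Algebra.mul_smul_comm])

lemma form_apply (τ : K →ₗ[F] F) (b p : K × K) : form τ b p = τ (b.1 * p.1 + b.2 * p.2) := rfl

lemma form_left {τ : K →ₗ[F] F} (hτ : τ ≠ 0) (b : K × K) (hb : b ≠ 0) : form τ b ≠ 0 := by
  obtain ⟨κ, hκ⟩ : ∃ κ, τ κ ≠ 0 := by
    by_contra h
    push Not at h
    exact hτ (LinearMap.ext h)
  intro h0
  by_cases h1 : b.1 = 0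
  · have h2 : b.2 ≠ 0 := fun h2 => hb (Prod.ext h1 h2)
    have h3 := LinearMap.congr_fun h0 (0, κ / b.2)
    rw [form_apply, mul_zero, zero_add, mul_div_cancel₀ _ h2, LinearMap.zero_apply] at h3
    exact hκ h3
  · have h3 := LinearMap.congr_fun h0 (κ / b.1, 0)
    rw [form_apply, mul_zero, add_zero, mul_div_cancel₀ _ h1, LinearMap.zero_apply] at h3
    exact hκ h3

lemma form_flip (τ : K →ₗ[F] F) : (form τ).flip = form τ := by
  refine LinearMap.ext fun b => LinearMap.ext fun p => ?_
  rw [LinearMap.flip_apply, form_apply, form_apply, mul_comm p.1, mul_comm p.2]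

/-- The colour of a point of `PG(2e-1, q)` is the `K`-line through it. -/
noncomputable def colour (x : ℙ F (K × K)) : ℙ K (K × K) :=
  Projectivization.mk K x.rep x.rep_nonzero

lemma colour_mk (v : K × K) (hv : v ≠ 0) :
    colour (Projectivization.mk F v hv) = Projectivization.mk K v hv := by
  obtain ⟨a, ha⟩ := Projectivization.exists_smul_eq_mk_rep F v hv
  unfold colour
  rw [Projectivization.mk_eq_mk_iff']
  refine ⟨algebraMap F K a, ?_⟩
  rw [algebraMap_smul, ← ha, Units.smul_def]

lemma zero_iff (b p : K × K) (hb : b ≠ 0) (hp : p ≠ 0) (hb' : (b.2, -b.1) ≠ (0 : K × K)) :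
    b.1 * p.1 + b.2 * p.2 = 0 ↔
      Projectivization.mk K p hp = Projectivization.mk K (b.2, -b.1) hb' := by
  rw [Projectivization.mk_eq_mk_iff']
  constructor
  · intro h
    by_cases h2 : b.2 = 0
    · have h1 : b.1 ≠ 0 := fun h1 => hb (Prod.ext h1 h2)
      have hp1 : p.1 = 0 := by
        rw [h2, zero_mul, add_zero] at h
        exact (mul_eq_zero.mp h).resolve_left h1
      refine ⟨-p.2 / b.1, Prod.ext ?_ ?_⟩
      · simp [h2, hp1]
      · simp only [Prod.smul_snd, smul_eq_mul]
        field_simp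
    · refine ⟨p.1 / b.2, Prod.ext ?_ ?_⟩
      · simp only [Prod.smul_fst, smul_eq_mul]
        field_simp
      · simp only [Prod.smul_snd, smul_eq_mul]
        field_simp
        linear_combination -h
  · rintro ⟨a, ha⟩
    rw [← ha]
    simp only [Prod.smul_fst, Prod.smul_snd, smul_eq_mul]
    ring

/-- The number of points of a block in a colour class which is not absent. -/
lemma class_card {e : ℕ} (he : finrank F K = e + 1) {τ : K →ₗ[F] F} (hτ : τ ≠ 0) (b : ℙ F (K × K))
    (p : K × K) (hp : p ≠ 0) (hz : b.rep.1 * p.1 + b.rep.2 * p.2 ≠ 0) :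
    ((blk (form τ) b).filter fun x => colour x = Projectivization.mk K p hp).card =
      Fintype.card F ^ e := by
  classical
  have hq : 0 < Fintype.card F - 1 := by
    have := Fintype.one_lt_card (α := F)
    omega
  obtain ⟨κ, hκ⟩ : ∃ κ, τ κ ≠ 0 := by
    by_contra h
    push Not at h
    exact hτ (LinearMap.ext h)
  set z := b.rep.1 * p.1 + b.rep.2 * p.2 with hzdef
  have h1 := card_proj (F := F)
    (fun x : ℙ F (K × K) => form τ b.rep x.rep ≠ 0 ∧ colour x = Projectivization.mk K p hp)
    (fun v => form τ b.rep v ≠ 0 ∧ ∃ a : K, a • p = v)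
    (fun v hv => by
      rw [form_mk_right (form τ) b v hv, colour_mk, Projectivization.mk_eq_mk_iff'])
    (by simp)
  have h2 := card_ne (F := F) (n := e) he (τ ∘ₗ LinearMap.mulRight F z) (by
    intro h0
    have := LinearMap.congr_fun h0 (κ / z)
    rw [LinearMap.comp_apply, LinearMap.mulRight_apply, div_mul_cancel₀ _ hz,
      LinearMap.zero_apply] at this
    exact hκ this)
  have h3 : (univ.filter fun v : K × K => form τ b.rep v ≠ 0 ∧ ∃ a : K, a • p = v).card =
      (univ.filter fun a : K => (τ ∘ₗ LinearMap.mulRight F z) a ≠ 0).card := by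
    symm
    have key : ∀ a : K, form τ b.rep (a • p) = (τ ∘ₗ LinearMap.mulRight F z) a := by
      intro a
      rw [form_apply, LinearMap.comp_apply, LinearMap.mulRight_apply, hzdef]
      congr 1
      simp only [Prod.smul_fst, Prod.smul_snd, smul_eq_mul]
      ring
    refine card_bij (fun a _ => a • p) ?_ ?_ ?_
    · intro a ha
      rw [mem_filter] at ha ⊢
      refine ⟨mem_univ _, ?_, a, rfl⟩
      rw [key]
      exact ha.2
    · intro a _ a' _ h
      exact smul_left_injective K hp h
    · intro v hv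
      rw [mem_filter] at hv
      obtain ⟨-, h4, a, rfl⟩ := hv
      refine ⟨a, ?_, rfl⟩
      rw [mem_filter]
      refine ⟨mem_univ _, ?_⟩
      rw [← key]
      exact h4
  rw [h3, h2, mul_comm] at h1
  rw [← (Nat.eq_of_mul_eq_mul_right hq h1).symm]
  congr 1
  ext x
  simp [blk]

lemma ulse {e : ℕ} (he : finrank F K = e + 1) {τ : K →ₗ[F] F} (hτ : τ ≠ 0) :
    IsULSE (blk (form τ)) (Fintype.card F ^ (2 * e + 1)) (Fintype.card F ^ (e + 1) + 1)
      (colour : ℙ F (K × K) → ℙ K (K × K)) := by
  classical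
  obtain ⟨κ, hκ⟩ : ∃ κ, τ κ ≠ 0 := by
    by_contra h
    push Not at h
    exact hτ (LinearMap.ext h)
  have hdiv : Fintype.card F ^ (2 * e + 1) / (Fintype.card F ^ (e + 1) + 1 - 1) =
      Fintype.card F ^ e := by
    rw [Nat.add_sub_cancel, show 2 * e + 1 = e + (e + 1) by ring, pow_add,
      Nat.mul_div_cancel _ (pow_pos Fintype.card_pos _)]
  -- the colour absent from a block
  have habs : ∀ (b : ℙ F (K × K)) (p : K × K) (hp : p ≠ 0),
      (∀ x ∈ blk (form τ) b, colour x ≠ Projectivization.mk K p hp) ↔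
        b.rep.1 * p.1 + b.rep.2 * p.2 = 0 := by
    intro b p hp
    constructor
    · intro h
      by_contra hz
      have h1 := class_card he hτ b p hp hz
      have h2 : 0 < Fintype.card F ^ e := pow_pos Fintype.card_pos _
      rw [← h1, card_pos] at h2
      obtain ⟨x, hx⟩ := h2
      rw [mem_filter] at hx
      exact h x hx.1 hx.2
    · intro hz x hx hc
      rw [blk, mem_filter] at hx
      unfold colour at hc
      rw [Projectivization.mk_eq_mk_iff'] at hc
      obtain ⟨a, ha⟩ := hc
      apply hx.2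
      rw [← ha, form_apply]
      have : b.rep.1 * (a • p).1 + b.rep.2 * (a • p).2 = a * (b.rep.1 * p.1 + b.rep.2 * p.2) := by
        simp only [Prod.smul_fst, Prod.smul_snd, smul_eq_mul]
        ring
      rw [this, hz, mul_zero, map_zero]
  refine ⟨?_, ?_, ?_, ?_, ?_⟩
  · intro y
    exact ⟨Projectivization.mk F y.rep y.rep_nonzero, by rw [colour_mk]; exact y.mk_rep⟩
  · have h1 := Projectivization.card_of_finrank K (K × K) (n := 2) (by
      rw [finrank_prod, finrank_self])
    rw [Nat.card_eq_fintype_card, Nat.card_eq_fintype_card,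
      Module.card_eq_pow_finrank (K := F) (V := K), he] at h1
    rw [h1, sum_range_succ, sum_range_one, pow_zero, pow_one, add_comm]
  · rw [Nat.add_sub_cancel]
    exact pow_dvd_pow _ (by omega)
  · intro b
    have hb' : (b.rep.2, -b.rep.1) ≠ (0 : K × K) := by
      intro h
      rw [Prod.mk_eq_zero, neg_eq_zero] at h
      exact b.rep_nonzero (Prod.ext h.2 h.1)
    refine ⟨Projectivization.mk K (b.rep.2, -b.rep.1) hb', ?_, ?_⟩
    · show ∀ x ∈ blk (form τ) b, colour x ≠ _
      rw [habs]
      ring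
    · intro c hc
      have hc' : ∀ x ∈ blk (form τ) b, colour x ≠ Projectivization.mk K c.rep c.rep_nonzero := by
        rw [c.mk_rep]
        exact hc
      rw [habs, zero_iff b.rep c.rep b.rep_nonzero c.rep_nonzero hb', c.mk_rep] at hc'
      exact hc'
  · rintro b c ⟨x, hx, hxc⟩
    rw [hdiv]
    have hz : b.rep.1 * c.rep.1 + b.rep.2 * c.rep.2 ≠ 0 := by
      intro hz
      rw [← habs b c.rep c.rep_nonzero, c.mk_rep] at hz
      exact hz x hx hxc
    have := class_card he hτ b c.rep c.rep_nonzero hz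
    rw [c.mk_rep] at this
    rw [← this]

end spread

/-- The number of points of `PG(n-1, q)`. -/
lemma card_points {F V : Type} [Field F] [Fintype F] [AddCommGroup V] [Module F V] [Fintype V]
    {n : ℕ} (hn : finrank F V = n) :
    Fintype.card (ℙ F V) = ∑ i ∈ range n, Fintype.card F ^ i := by
  have h1 := Projectivization.card_of_finrank F V hn
  rw [Nat.card_eq_fintype_card, Nat.card_eq_fintype_card] at h1
  exact h1

/-- The complement of the design of points and hyperplanes of `PG(2e-1, q)` is coloured by the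
lines of a Desarguesian spread. -/
lemma exists_coloured (q e : ℕ) (hq : IsPrimePow q) :
    ExistsColoured (∑ i ∈ range (2 * (e + 1)), q ^ i) (q ^ (2 * e + 1)) (q ^ (e + 1) + 1) := by
  classical
  obtain ⟨p, a, hp, ha, rfl⟩ := hq
  have : Fact p.Prime := ⟨hp.nat_prime⟩
  let F := GaloisField p a
  let K := FiniteField.Extension F p (e + 1)
  letI : Fintype F := Fintype.ofFinite _
  letI : Fintype K := Fintype.ofFinite _
  have hF : Fintype.card F = p ^ a := by
    rw [← Nat.card_eq_fintype_card]
    exact GaloisField.card p a ha.ne'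
  have he : finrank F K = e + 1 := FiniteField.finrank_extension F p (e + 1)
  obtain ⟨τ, hτ⟩ : ∃ τ : K →ₗ[F] F, τ ≠ 0 := by
    by_contra h
    push Not at h
    have h1 : finrank F (K →ₗ[F] F) = finrank F K := by
      rw [Module.finrank_linearMap, finrank_self, mul_one]
    have h2 : Subsingleton (K →ₗ[F] F) := ⟨fun f g => by rw [h f, h g]⟩
    rw [finrank_zero_of_subsingleton, he] at h1
    omega
  have hn : finrank F (K × K) = 2 * e + 2 := by
    rw [finrank_prod, he]
    ring
  have h1 : 1 < Fintype.card F := Fintype.one_lt_card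
  have hb := bibd (F := F) (V := K × K) hn (form τ) (fun v hv => form_left hτ v hv)
    (fun w hw => by rw [form_flip]; exact form_left hτ w hw)
    (by
      calc 2 ≤ Fintype.card F := h1
        _ = Fintype.card F ^ 1 := (pow_one _).symm
        _ ≤ Fintype.card F ^ (2 * e + 1) := Nat.pow_le_pow_right (by omega) (by omega))
  rw [card_points hn] at hb
  rw [← hF]
  exact ⟨_, _, _, _, _, _, _, _, _, _, _, hb, card_points hn, ulse he hτ⟩

/-- The dot product. -/
noncomputable def dot (F : Type) [Field F] (n : ℕ) :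
    (Fin n → F) →ₗ[F] (Fin n → F) →ₗ[F] F :=
  LinearMap.mk₂ F (fun b p => b ⬝ᵥ p) (fun b b' p => add_dotProduct b b' p)
    (fun c b p => smul_dotProduct c b p) (fun b p p' => dotProduct_add b p p')
    (fun c b p => dotProduct_smul c b p)

lemma dot_ne {F : Type} [Field F] {n : ℕ} (b : Fin n → F) (hb : b ≠ 0) : dot F n b ≠ 0 := by
  obtain ⟨i, hi⟩ := Function.ne_iff.mp hb
  intro h
  have h1 := LinearMap.congr_fun h (Pi.single i 1)
  rw [dot, LinearMap.mk₂_apply, dotProduct_single_one, LinearMap.zero_apply] at h1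
  exact hi h1

lemma dot_flip (F : Type) [Field F] (n : ℕ) : (dot F n).flip = dot F n := by
  refine LinearMap.ext fun b => LinearMap.ext fun p => ?_
  rw [LinearMap.flip_apply]
  exact dotProduct_comm p b

/-- The complement of the design of points and hyperplanes of a projective space. -/
lemma exists_symmetric (q n : ℕ) (hq : IsPrimePow q) :
    ExistsSymmetric (∑ i ∈ range (n + 2), q ^ i) (q ^ (n + 1)) := by
  classical
  obtain ⟨p, a, hp, ha, rfl⟩ := hq
  have : Fact p.Prime := ⟨hp.nat_prime⟩
  let F := GaloisField p a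
  letI : Fintype F := Fintype.ofFinite _
  have hF : Fintype.card F = p ^ a := by
    rw [← Nat.card_eq_fintype_card]
    exact GaloisField.card p a ha.ne'
  have hn : finrank F (Fin (n + 2) → F) = n + 2 := by simp
  have h1 : 1 < Fintype.card F := Fintype.one_lt_card
  have hb := bibd (F := F) (V := Fin (n + 2) → F) hn (dot F (n + 2)) (fun v hv => dot_ne v hv)
    (fun w hw => by rw [dot_flip]; exact dot_ne w hw)
    (by
      calc 2 ≤ Fintype.card F := h1
        _ = Fintype.card F ^ 1 := (pow_one _).symm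
        _ ≤ Fintype.card F ^ (n + 1) := Nat.pow_le_pow_right (by omega) (by omega))
  rw [card_points hn] at hb
  rw [← hF]
  exact ⟨_, _, _, _, _, _, _, hb, card_points hn⟩

lemma star (q n s : ℕ) (hq : 2 ≤ q) (hs : s ^ 2 = q ^ (n + 1)) :
    ClassSize.Star (∑ i ∈ range (n + 1), q ^ i) (q ^ n) (s + 1) := by
  unfold ClassSize.Star
  push_cast
  have h1 : (∑ i ∈ range (n + 1), (q : ℚ) ^ i) * ((q : ℚ) - 1) = (q : ℚ) ^ (n + 1) - 1 :=
    geom_sum_mul _ _
  have h2 : (s : ℚ) ^ 2 = (q : ℚ) ^ (n + 1) := by exact_mod_cast hs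
  have h3 : (2 : ℚ) ≤ q := by exact_mod_cast hq
  have h4 : (0 : ℚ) < (q : ℚ) ^ n := by positivity
  have h5 : ((s : ℚ) + 1 - 1) ^ 2 - (q : ℚ) ^ n = (q : ℚ) ^ n * ((q : ℚ) - 1) := by
    rw [add_sub_cancel_right, h2, pow_succ]
    ring
  have h6 : (q : ℚ) ^ n * ((q : ℚ) - 1) ≠ 0 := by
    have : (0 : ℚ) < (q : ℚ) - 1 := by linarith
    positivity
  rw [h5, eq_div_iff h6]
  linear_combination ((q : ℚ) ^ n) * h1 - ((q : ℚ) ^ n) * h2

/-- For every prime power `q` and every `e ≥ 1` the parameters of the complement of the design of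
points and hyperplanes of `PG(2e-1, q)` satisfy `(∗)` with `m = q^e + 1`, and there is a `0`-ULSE
`m`-coloured symmetric BIBD with these parameters. -/
theorem result (q e : ℕ) (hq : IsPrimePow q) (he : 1 ≤ e) :
    ClassSize.Star (∑ i ∈ range (2 * e), q ^ i) (q ^ (2 * e - 1)) (q ^ e + 1) ∧
      ExistsColoured (∑ i ∈ range (2 * e), q ^ i) (q ^ (2 * e - 1)) (q ^ e + 1) := by
  obtain ⟨e, rfl⟩ : ∃ e', e = e' + 1 := ⟨e - 1, by omega⟩
  rw [show 2 * (e + 1) - 1 = 2 * e + 1 by omega]
  refine ⟨?_, exists_coloured q e hq⟩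
  rw [show 2 * (e + 1) = (2 * e + 1) + 1 by ring]
  exact star q (2 * e + 1) (q ^ (e + 1)) hq.two_le (by rw [← pow_mul]; congr 1; ring)

end Pool.Agent.Results.MP_9fbb3c_co.Projective
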