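import Mathlib
import Pool.Agent.Results.MP_9fbb3c_co.Projective

namespace Pool.Agent.Results.MP_9fbb3c_co.OddProjective

open Finset
open Pool.Agent.Results.MP_9fbb3c_co.ClassSize Pool.Agent.Results.MP_9fbb3c_co.Projective

/-- For every prime power `t` and every odd `n ≥ 3` the parameters of the complement of the design of
points and hyperplanes of `PG(n-1, t^2)` satisfy `(∗)` with `m = t^n + 1`, a symmetric BIBD with
these parameters exists, and no symmetric BIBD with these parameters has a `0`-ULSE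
`m`-colouring. -/
theorem result : ∀ t n : ℕ, IsPrimePow t → Odd n → 3 ≤ n →
    ClassSize.Star (∑ i ∈ range n, (t ^ 2) ^ i) ((t ^ 2) ^ (n - 1)) (t ^ n + 1) ∧
      ExistsSymmetric (∑ i ∈ range n, (t ^ 2) ^ i) ((t ^ 2) ^ (n - 1)) ∧
      ¬ ExistsColoured (∑ i ∈ range n, (t ^ 2) ^ i) ((t ^ 2) ^ (n - 1)) (t ^ n + 1) := by
  intro t n ht hodd hn
  have ht2 : 2 ≤ t := ht.two_le
  obtain ⟨n, rfl⟩ : ∃ n', n = n' + 2 := ⟨n - 2, by omega⟩
  rw [show n + 2 - 1 = n + 1 by omega]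
  refine ⟨?_, exists_symmetric _ n (ht.pow two_ne_zero), ?_⟩
  · exact star (t ^ 2) (n + 1) (t ^ (n + 2)) (by nlinarith) (by
      rw [← pow_mul, ← pow_mul, mul_comm])
  · rintro ⟨P, I, C, _, _, _, _, _, B, l, f, h, -, hf⟩
    have hC : 0 < Fintype.card C := by rw [hf.card]; omega
    obtain ⟨c⟩ := Fintype.card_pos_iff.mp hC
    have h1 := mul_class h hf c
    set x := (univ.filter fun x => f x = c).card
    have h2 : (∑ i ∈ range (n + 2), ((t : ℤ) ^ 2) ^ i) * ((t : ℤ) ^ 2 - 1) =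
        ((t : ℤ) ^ 2) ^ (n + 2) - 1 := geom_sum_mul _ _
    have h3 : ((t : ℤ) ^ (n + 2) + 1) * x = ∑ i ∈ range (n + 2), ((t : ℤ) ^ 2) ^ i := by
      exact_mod_cast h1
    rw [← h3] at h2
    have h4 : (t : ℤ) ^ (n + 2) + 1 ≠ 0 := by positivity
    have h5 : (x : ℤ) * ((t : ℤ) ^ 2 - 1) = (t : ℤ) ^ (n + 2) - 1 := by
      apply mul_left_cancel₀ h4
      linear_combination h2
    have h6 : ((t : ℤ) + 1) ∣ (t : ℤ) ^ (n + 2) + 1 := by
      simpa using hodd.add_dvd_pow_add_pow (t : ℤ) 1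
    have h7 : ((t : ℤ) + 1) ∣ (t : ℤ) ^ (n + 2) - 1 := ⟨x * (t - 1), by rw [← h5]; ring⟩
    have h8 : ((t : ℤ) + 1) ∣ 2 := by
      have h9 := dvd_sub h6 h7
      rwa [show (t : ℤ) ^ (n + 2) + 1 - ((t : ℤ) ^ (n + 2) - 1) = 2 by ring] at h9
    have h9 := Int.le_of_dvd (by norm_num) h8
    have h10 : (2 : ℤ) ≤ t := by exact_mod_cast ht2
    linarith

end Pool.Agent.Results.MP_9fbb3c_co.OddProjective
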